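import Mathlib

/-!
# Jointly intersective polynomials over function fields (MP_045218)

The question asks whether, for every global function field `K` and all nonconstant
`P_1, ..., P_k ∈ O_K[x]`, the condition (i) that the `P_i` have a common root modulo every nonzero
ideal of `O_K` is equivalent to (ii): every `A ⊆ O_K` of positive upper Banach density contains
`x, x + P_1(n), ..., x + P_k(n)` for some `x, n ∈ O_K`.

We show that this fails for every global function field `K` and every `k ≥ 1`.  The reason is that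
`(O_K, +)` has many subgroups of finite index that contain no nonzero ideal.

Let `F_q[t] ⊆ O_K`, `s = t (t - 1)` and `L(x) = (s x)^q - s x`, an `F_q`-linear polynomial, and let
`P(x) = L(x) - (t^q - t) = ∏_{c ∈ F_q} (s x - t - c)`.  Then `P` is divisible by
`(t x - 1) ((t - 1) x - 1)`, which has a root modulo every nonzero ideal, as `t` and `t - 1` are
coprime.  But `P` has no root in `O_K`, i.e. `d = t^q - t` does not lie in the `F_q`-subspace
`L(O_K)` of `O_K`.  So there is an `F_q`-linear `f : O_K → F_q` that vanishes on `L(O_K)` but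
not at `d`, and `f(P(n)) = - f(d) ≠ 0` for all `n`.  The set `A = ker f` has positive upper Banach
density, and `P(n) ∉ A - A = A` for all `n`.

For `k ≥ 2` we take `x P(x), (x - 1) P(x), x^2 P(x), x^3 P(x), ...`: each of these has a root in
`O_K`, so that it satisfies (i) and (ii) on its own, and together they satisfy (i); but
`f(n P(n)) - f((n - 1) P(n)) = f(P(n)) ≠ 0`, so that (ii) fails for `A = ker f`.
-/

namespace Pool.Agent.Results.MP_045218_nt.FailsForEveryFunctionField

open Polynomial Filter Topology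

/-! ### Definitions -/

/-- A Folner sequence in a (discrete) abelian group: finite nonempty sets `F_N` with
`|(F_N + a) △ F_N| / |F_N| → 0` for every `a`. -/
def IsFolner {G : Type*} [AddCommGroup G] (F : ℕ → Finset G) : Prop :=
  (∀ N, (F N).Nonempty) ∧ ∀ a : G, Tendsto
    (fun N => ((symmDiff ((fun x => x + a) '' (F N : Set G)) (F N : Set G)).ncard : ℝ) /
      (F N).card) atTop (𝓝 0)

/-- The upper Banach density of `A`: the supremum over all Folner sequences `(F_N)` of
`limsup |A ∩ F_N| / |F_N|`. -/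
noncomputable def upperBanachDensity {G : Type*} [AddCommGroup G] (A : Set G) : ℝ :=
  sSup {d : ℝ | ∃ F : ℕ → Finset G, IsFolner F ∧
    d = limsup (fun N => ((A ∩ (F N : Set G)).ncard : ℝ) / (F N).card) atTop}

/-- Condition (i): the `P_i` have a common root modulo every nonzero ideal. -/
def RootModEveryIdeal {O : Type*} [CommRing O] {k : ℕ} (P : Fin k → O[X]) : Prop :=
  ∀ I : Ideal O, I ≠ ⊥ → ∃ n : O, ∀ i, (P i).eval n ∈ I

/-- Condition (ii): every set of positive upper Banach density contains
`x, x + P_1(n), ..., x + P_k(n)` for some `x, n`. -/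
def Recurrent {O : Type*} [CommRing O] {k : ℕ} (P : Fin k → O[X]) : Prop :=
  ∀ A : Set O, 0 < upperBanachDensity A → ∃ x n : O, x ∈ A ∧ ∀ i, x + (P i).eval n ∈ A

/-! ### Density of the kernel of a linear functional -/

theorem ratio_le_one {G : Type*} [AddCommGroup G] (A : Set G) (S : Finset G) :
    ((A ∩ (S : Set G)).ncard : ℝ) / S.card ≤ 1 := by
  apply div_le_one_of_le₀ _ (Nat.cast_nonneg _)
  have : (A ∩ (S : Set G)).ncard ≤ (S : Set G).ncard :=
    Set.ncard_le_ncard Set.inter_subset_right (Finset.finite_toSet S)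
  rw [Set.ncard_coe_finset] at this
  exact_mod_cast this

theorem bddAbove_density {G : Type*} [AddCommGroup G] (A : Set G) :
    BddAbove {d : ℝ | ∃ F : ℕ → Finset G, IsFolner F ∧
      d = limsup (fun N => ((A ∩ (F N : Set G)).ncard : ℝ) / (F N).card) atTop} := by
  refine ⟨1, ?_⟩
  rintro d ⟨F, -, rfl⟩
  refine limsup_le_of_le ?_ (Eventually.of_forall fun N => ratio_le_one A (F N))
  exact isCoboundedUnder_le_of_le atTop (x := 0) (fun N => by positivity)

theorem ker_density_pos {F V : Type*} [Field F] [Fintype F] [AddCommGroup V] [Module F V]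
    [Countable V] (f : V →ₗ[F] F) : 0 < upperBanachDensity {x : V | f x = 0} := by
  classical
  obtain ⟨e, he⟩ := exists_surjective_nat V
  have hfin : ∀ N : ℕ, Finite (Submodule.span F (e '' (Set.Iic N))) := by
    intro N
    have : Module.Finite F (Submodule.span F (e '' (Set.Iic N))) :=
      Module.Finite.span_of_finite F ((Set.finite_Iic N).image e)
    exact Module.finite_of_finite F
  set W : ℕ → Submodule F V := fun N => Submodule.span F (e '' (Set.Iic N)) with hW
  have hfinS : ∀ N, (W N : Set V).Finite := fun N => by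
    have := hfin N
    exact Set.toFinite _
  set S : ℕ → Finset V := fun N => (hfinS N).toFinset with hS
  have hcoe : ∀ N, (S N : Set V) = (W N : Set V) := fun N => by simp [hS]
  have hne : ∀ N, (S N).Nonempty := fun N => ⟨0, by simp [hS]⟩
  have hfol : IsFolner S := by
    refine ⟨hne, fun a => ?_⟩
    obtain ⟨j, rfl⟩ := he a
    apply tendsto_const_nhds.congr'
    filter_upwards [eventually_ge_atTop j] with N hN
    have hmem : e j ∈ W N := Submodule.subset_span ⟨j, hN, rfl⟩
    have himg : (fun x => x + e j) '' (S N : Set V) = (S N : Set V) := by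
      rw [hcoe]
      ext x
      constructor
      · rintro ⟨y, hy, rfl⟩
        exact (W N).add_mem hy hmem
      · intro hx
        exact ⟨x - e j, (W N).sub_mem hx hmem, by simp⟩
    rw [himg, symmDiff_self]
    simp
  set q := Fintype.card F with hq
  have hq0 : (0 : ℝ) < q := by exact_mod_cast Fintype.card_pos
  have hlow : ∀ N, 1 / (q : ℝ) ≤ (({x : V | f x = 0} ∩ (S N : Set V)).ncard : ℝ) / (S N).card := by
    intro N
    have hfinN := hfin N
    -- the restriction of `f` to `W N`
    let g : W N →ₗ[F] F := f.comp (W N).subtype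
    have h1 : Nat.card (LinearMap.ker g) * Nat.card (LinearMap.range g) = Nat.card (W N) := by
      have h := AddSubgroup.card_mul_index g.toAddMonoidHom.ker
      rw [AddSubgroup.index_ker] at h
      exact h
    have h2 : Nat.card (LinearMap.range g) ≤ q := by
      rw [hq, ← Nat.card_eq_fintype_card]
      exact Nat.card_le_card_of_injective _ Subtype.val_injective
    have h3 : ({x : V | f x = 0} ∩ (S N : Set V)).ncard = Nat.card (LinearMap.ker g) := by
      have h4 : ({x : V | f x = 0} ∩ (S N : Set V)) =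
          (W N).subtype '' (LinearMap.ker g : Set (W N)) := by
        rw [hcoe]
        ext x
        simp only [Set.mem_inter_iff, SetLike.mem_coe, Set.mem_image]
        constructor
        · rintro ⟨hx1, hx2⟩
          exact ⟨⟨x, hx2⟩, hx1, rfl⟩
        · rintro ⟨y, hy, rfl⟩
          exact ⟨hy, y.2⟩
      rw [h4, Set.ncard_image_of_injective _ (W N).subtype_injective]
      rfl
    have h5 : (S N).card = Nat.card (W N) := by
      rw [← Set.ncard_coe_finset, hcoe]
      rfl
    have h6 : (0 : ℝ) < (S N).card := by exact_mod_cast (hne N).card_pos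
    rw [div_le_div_iff₀ hq0 h6, one_mul, h3, h5, ← h1]
    exact_mod_cast Nat.mul_le_mul_left _ h2
  have hmem := le_csSup (bddAbove_density {x : V | f x = 0}) ⟨S, hfol, rfl⟩
  refine lt_of_lt_of_le (lt_of_lt_of_le (one_div_pos.2 hq0) ?_) hmem
  refine le_limsup_of_frequently_le (Frequently.of_forall hlow) ?_
  exact isBoundedUnder_of ⟨1, fun N => ratio_le_one _ _⟩

/-! ### The polynomial -/

/-- In an algebra over the field `F` with `q` elements, `∏_{c ∈ F} (z - c) = z^q - z`. -/
theorem prod_sub {F O : Type*} [Field F] [Fintype F] [CommRing O]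
    [Algebra F O] (z : O) : ∏ c : F, (z - algebraMap F O c) = z ^ Fintype.card F - z := by
  have hq := Fintype.one_lt_card (α := F)
  have hprod : (∏ c : F, (X - C c)) = (X ^ Fintype.card F - X : F[X]) := by
    have hmon : (X ^ Fintype.card F - X : F[X]).Monic := monic_X_pow_sub (by
      rw [degree_X]
      exact_mod_cast hq)
    have hroots := FiniteField.roots_X_pow_card_sub_X F
    have hcard : Multiset.card (X ^ Fintype.card F - X : F[X]).roots =
        (X ^ Fintype.card F - X : F[X]).natDegree := by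
      rw [hroots, FiniteField.X_pow_card_sub_X_natDegree_eq F hq]
      rfl
    have := prod_multiset_X_sub_C_of_monic_of_roots_card_eq hmon hcard
    rw [hroots] at this
    exact this
  have h1 := congrArg (fun p : F[X] => aeval z p) hprod
  simpa only [map_prod, map_sub, aeval_X, aeval_C, map_pow] using h1

/-- In a domain over `F`, the solutions of `z^q = z` are the elements of `F`. -/
theorem mem_range_of_pow_card {F O : Type*} [Field F] [Fintype F] [CommRing O] [IsDomain O]
    [Algebra F O] {z : O} (hz : z ^ Fintype.card F = z) : ∃ c : F, algebraMap F O c = z := by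
  have h1 := prod_sub (F := F) z
  rw [hz, sub_self] at h1
  obtain ⟨c, -, hc⟩ := Finset.prod_eq_zero_iff.1 h1
  exact ⟨c, (sub_eq_zero.1 hc).symm⟩

theorem mul_dvd {F O : Type*} [Field F] [Fintype F] [CommRing O] [Algebra F O] (z : O) :
    z * (z + 1) ∣ z ^ Fintype.card F - z := by
  classical
  rw [← prod_sub (F := F) z]
  have h01 : (0 : F) ≠ -1 := fun h => one_ne_zero (α := F) (by linear_combination h)
  have h2 : z * (z + 1) = ∏ c ∈ ({0, -1} : Finset F), (z - algebraMap F O c) := by
    rw [Finset.prod_pair h01]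
    simp
  rw [h2]
  exact Finset.prod_dvd_prod_of_subset _ _ _ (Finset.subset_univ _)

/-- The `F`-linear map `L(n) = (s n)^q - s n`. -/
noncomputable def linMap (F : Type*) {O : Type*} [Field F] [Fintype F] [CommRing O] [Algebra F O]
    (s : O) : O →ₗ[F] O :=
  (FiniteField.frobeniusAlgHom F O).toLinearMap.comp (LinearMap.mulLeft F s) -
    LinearMap.mulLeft F s

theorem linMap_apply (F : Type*) {O : Type*} [Field F] [Fintype F] [CommRing O] [Algebra F O]
    (s n : O) : linMap F s n = (s * n) ^ Fintype.card F - s * n := by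
  simp [linMap, FiniteField.coe_frobeniusAlgHom]

theorem frob_sub (F : Type*) {O : Type*} [Field F] [Fintype F] [CommRing O] [Algebra F O]
    (a b : O) : (a - b) ^ Fintype.card F = a ^ Fintype.card F - b ^ Fintype.card F := by
  have := map_sub (FiniteField.frobeniusAlgHom F O) a b
  simpa [FiniteField.coe_frobeniusAlgHom] using this

/-- With `t` and `t - 1` nonunits, `L(n) = t^q - t` has no solution, for `s = t(t-1)`. -/
theorem linMap_ne {F O : Type*} [Field F] [Fintype F] [CommRing O] [IsDomain O] [Algebra F O]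
    {t : O} (ht : ¬ IsUnit t) (ht1 : ¬ IsUnit (t - 1)) (ht0 : t ≠ 0) (n : O) :
    linMap F (t * (t - 1)) n ≠ t ^ Fintype.card F - t := by
  intro h
  rw [linMap_apply] at h
  have hz : (t * (t - 1) * n - t) ^ Fintype.card F = t * (t - 1) * n - t := by
    rw [frob_sub]
    linear_combination h
  obtain ⟨c, hc⟩ := mem_range_of_pow_card (F := F) hz
  rcases eq_or_ne c 0 with rfl | hc0
  · rw [map_zero] at hc
    have h3 : t * ((t - 1) * n - 1) = 0 := by linear_combination -hc
    rcases mul_eq_zero.1 h3 with h4 | h4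
    · exact ht0 h4
    · exact ht1 (IsUnit.of_mul_eq_one n (sub_eq_zero.1 h4))
  · apply ht
    have hcu : IsUnit (algebraMap F O c) := (IsUnit.mk0 c hc0).map (algebraMap F O)
    have h5 : t * ((t - 1) * n - 1) = algebraMap F O c := by rw [hc]; ring
    rw [← h5] at hcu
    exact isUnit_of_mul_isUnit_left hcu

/-- A root of `(t x - 1) ((t - 1) x - 1)` modulo `I`, given `t^k (1 - t u) ∈ I`. -/
theorem exists_mem {O : Type*} [CommRing O] {I : Ideal O} {t u : O} {k : ℕ}
    (h : t ^ k * (1 - t * u) ∈ I) :
    ∃ n : O, (t * n - 1) * ((t - 1) * n - 1) ∈ I := by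
  set f := Ideal.Quotient.mk I
  set T := f t
  set U := f u
  have h0 : T ^ k * (1 - T * U) = 0 := by
    have := Ideal.Quotient.eq_zero_iff_mem.2 h
    simpa [T, U, f] using this
  obtain ⟨w, hw⟩ : ∃ w : O, (t - 1) * w = 1 - t ^ k := by
    refine ⟨-(∑ i ∈ Finset.range k, t ^ i), ?_⟩
    have := geom_sum_mul t k
    linear_combination -this
  set W := f w
  have hW : (T - 1) * W = 1 - T ^ k := by
    have := congrArg f hw
    simpa [T, W, f] using this
  have h1 : T ^ k * (T * U) = T ^ k := by linear_combination -h0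
  have h2 : ∀ j, T ^ k * (T * U) ^ j = T ^ k := by
    intro j
    induction j with
    | zero => simp
    | succ j ih => rw [pow_succ, ← mul_assoc, ih, h1]
  set E := T ^ k * U ^ k with hE
  have hE2 : E * E = E := by
    have := h2 k
    rw [mul_pow] at this
    calc E * E = (T ^ k * (T ^ k * U ^ k)) * U ^ k := by rw [hE]; ring
      _ = E := by rw [this]
  have hE3 : E * (T * U - 1) = 0 := by
    rw [hE]
    linear_combination -U ^ k * h0
  have hE4 : (1 - E) * T ^ k = 0 := by
    have := h2 k
    rw [mul_pow] at this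
    rw [hE]
    linear_combination -this
  refine ⟨t ^ k * u ^ k * u + (1 - t ^ k * u ^ k) * w, ?_⟩
  rw [← Ideal.Quotient.eq_zero_iff_mem]
  have hn : f (t ^ k * u ^ k * u + (1 - t ^ k * u ^ k) * w) = E * U + (1 - E) * W := by
    simp [T, U, W, E, f]
  have : f ((t * (t ^ k * u ^ k * u + (1 - t ^ k * u ^ k) * w) - 1) *
      ((t - 1) * (t ^ k * u ^ k * u + (1 - t ^ k * u ^ k) * w) - 1)) =
      (T * (E * U + (1 - E) * W) - 1) * ((T - 1) * (E * U + (1 - E) * W) - 1) := by
    rw [map_mul, map_sub, map_mul, map_sub, map_mul, map_sub, hn, map_one]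
  rw [this]
  have e1 : T * (E * U + (1 - E) * W) - 1 = (1 - E) * (T * W - 1) := by
    linear_combination hE3
  have e2 : (T - 1) * (E * U + (1 - E) * W) - 1 = E * ((T - 1) * U - 1) := by
    linear_combination (1 - E) * hW - hE4
  rw [e1, e2]
  linear_combination -(T * W - 1) * ((T - 1) * U - 1) * hE2

/-- The polynomial `P(x) = (s x)^q - s x - (t^q - t)`, `s = t (t - 1)`. -/
noncomputable def poly {O : Type*} [CommRing O] (q : ℕ) (t : O) : O[X] :=
  (C (t * (t - 1)) * X) ^ q - C (t * (t - 1)) * X - C (t ^ q - t)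

theorem eval_poly {O : Type*} [CommRing O] (q : ℕ) (t n : O) :
    (poly q t).eval n = (t * (t - 1) * n) ^ q - t * (t - 1) * n - (t ^ q - t) := by
  simp [poly]

theorem coeff_poly {O : Type*} [CommRing O] {q : ℕ} (hq : 1 < q) (t : O) :
    (poly q t).coeff q = (t * (t - 1)) ^ q := by
  have h0 : q ≠ 0 := by omega
  have h1 : q ≠ 1 := by omega
  rw [poly, mul_pow, ← C_pow, coeff_sub, coeff_sub, coeff_C_mul_X_pow, if_pos rfl,
    coeff_C_mul_X, if_neg h1, coeff_C, if_neg h0]
  ring

/-- `P(n) ∈ I` for some `n`, for every nonzero ideal `I`. -/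
theorem root_mod {F O : Type*} [Field F] [Fintype F] [CommRing O] [Algebra F O] {t : O}
    (hI : ∀ I : Ideal O, I ≠ ⊥ → ∃ (k : ℕ) (u : O), t ^ k * (1 - t * u) ∈ I)
    (I : Ideal O) (hI0 : I ≠ ⊥) : ∃ n : O, (poly (Fintype.card F) t).eval n ∈ I := by
  obtain ⟨m, u, hmu⟩ := hI I hI0
  obtain ⟨n, hn⟩ := exists_mem hmu
  refine ⟨n, ?_⟩
  rw [eval_poly]
  have h1 : (t * (t - 1) * n) ^ Fintype.card F - t * (t - 1) * n - (t ^ Fintype.card F - t) =
      (t * (t - 1) * n - t) ^ Fintype.card F - (t * (t - 1) * n - t) := by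
    rw [frob_sub]
    ring
  rw [h1]
  obtain ⟨r, hr⟩ := mul_dvd (F := F) (t * (t - 1) * n - t)
  rw [hr]
  apply I.mul_mem_right
  have h2 : (t * (t - 1) * n - t) * (t * (t - 1) * n - t + 1) =
      (t * (t - 1)) * ((t * n - 1) * ((t - 1) * n - 1)) := by ring
  rw [h2]
  exact I.mul_mem_left _ hn

/-- There is a linear functional `f` with `f (P(n)) ≠ 0` for all `n`. -/
theorem exists_functional {F O : Type*} [Field F] [Fintype F] [CommRing O] [IsDomain O]
    [Algebra F O] {t : O} (ht : ¬ IsUnit t) (ht1 : ¬ IsUnit (t - 1)) (ht0 : t ≠ 0) :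
    ∃ f : O →ₗ[F] F, ∀ n : O, f ((poly (Fintype.card F) t).eval n) ≠ 0 := by
  have hd : t ^ Fintype.card F - t ∉ LinearMap.range (linMap F (t * (t - 1))) := by
    rintro ⟨n, hn⟩
    exact linMap_ne ht ht1 ht0 n hn
  obtain ⟨f, hf, hle⟩ := Submodule.exists_le_ker_of_notMem hd
  refine ⟨f, fun n h => ?_⟩
  have h4 : f (linMap F (t * (t - 1)) n) = 0 := hle ⟨n, rfl⟩
  rw [linMap_apply] at h4
  rw [eval_poly, map_sub, h4, zero_sub, neg_eq_zero] at h
  exact hf h

theorem poly_ne_zero {O : Type*} [CommRing O] [IsDomain O] {q : ℕ} (hq : 1 < q) {t : O}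
    (ht : ¬ IsUnit t) (ht0 : t ≠ 0) : (poly q t).coeff q ≠ 0 := by
  have ht10 : t - 1 ≠ 0 := fun h => ht (by rw [sub_eq_zero.1 h]; exact isUnit_one)
  rw [coeff_poly hq]
  exact pow_ne_zero _ (mul_ne_zero ht0 ht10)

/-- The counterexample for `k = 1`, in an abstract form. -/
theorem main_one {F O : Type*} [Field F] [Fintype F] [CommRing O] [IsDomain O] [Algebra F O]
    [Countable O] {t : O} (ht : ¬ IsUnit t) (ht1 : ¬ IsUnit (t - 1)) (ht0 : t ≠ 0)
    (hI : ∀ I : Ideal O, I ≠ ⊥ → ∃ (k : ℕ) (u : O), t ^ k * (1 - t * u) ∈ I) :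
    ∃ P : O[X], 0 < P.natDegree ∧
      RootModEveryIdeal (fun _ : Fin 1 => P) ∧ ¬ Recurrent (fun _ : Fin 1 => P) := by
  have hq := Fintype.one_lt_card (α := F)
  refine ⟨poly (Fintype.card F) t, ?_, ?_, ?_⟩
  · have := le_natDegree_of_ne_zero (poly_ne_zero hq ht ht0)
    omega
  · intro I hI0
    obtain ⟨n, hn⟩ := root_mod (F := F) hI I hI0
    exact ⟨n, fun _ => hn⟩
  · intro hrec
    obtain ⟨f, hf⟩ := exists_functional (F := F) ht ht1 ht0
    obtain ⟨x, n, hx, hxn⟩ := hrec {x | f x = 0} (ker_density_pos f)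
    have h1 : f (x + (poly (Fintype.card F) t).eval n) = 0 := hxn 0
    have h3 : f x = 0 := hx
    rw [map_add, h3, zero_add] at h1
    exact hf n h1

/-- The family for `k ≥ 2`: `x P(x), (x - 1) P(x), x^2 P(x), x^3 P(x), ...` -/
noncomputable def fam {O : Type*} [CommRing O] (P : O[X]) (i : ℕ) : O[X] :=
  (if i = 0 then X else if i = 1 then X - 1 else X ^ i) * P

/-- The counterexample for `k ≥ 2`, in an abstract form: here each `P_i` has a root. -/
theorem main_two {F O : Type*} [Field F] [Fintype F] [CommRing O] [IsDomain O] [Algebra F O]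
    [Countable O] {t : O} (ht : ¬ IsUnit t) (ht1 : ¬ IsUnit (t - 1)) (ht0 : t ≠ 0)
    (hI : ∀ I : Ideal O, I ≠ ⊥ → ∃ (k : ℕ) (u : O), t ^ k * (1 - t * u) ∈ I)
    {k : ℕ} (hk : 2 ≤ k) :
    ∃ P : Fin k → O[X], Function.Injective P ∧
      (∀ i, 0 < (P i).natDegree ∧ ∃ r : O, (P i).eval r = 0) ∧
      RootModEveryIdeal P ∧ ¬ Recurrent P := by
  have hq := Fintype.one_lt_card (α := F)
  set Q := poly (Fintype.card F) t with hQ
  have hQc := poly_ne_zero hq ht ht0
  have hQ0 : Q ≠ 0 := by
    intro h
    apply hQc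
    rw [← hQ, h, coeff_zero]
  have hfac : ∀ i : ℕ, (if i = 0 then X else if i = 1 then X - 1 else X ^ i : O[X]) ≠ 0 := by
    intro i
    split_ifs with h0 h1
    · exact X_ne_zero
    · rw [← C_1]
      exact X_sub_C_ne_zero 1
    · exact pow_ne_zero _ X_ne_zero
  have hdeg : ∀ i : ℕ, (if i = 0 then X else if i = 1 then X - 1 else X ^ i : O[X]).natDegree =
      if i = 0 then 1 else i := by
    intro i
    split_ifs with h0 h1
    · exact natDegree_X
    · rw [← C_1, natDegree_X_sub_C, h1]
    · exact natDegree_X_pow i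
  refine ⟨fun i => fam Q i, ?_, ?_, ?_, ?_⟩
  · intro i j hij
    have h1 := mul_right_cancel₀ hQ0 hij
    have h2 := congrArg natDegree h1
    rw [hdeg, hdeg] at h2
    by_contra hne
    have hne' : (i : ℕ) ≠ j := fun h => hne (Fin.ext h)
    have hX : (X : O[X]) ≠ X - 1 := by
      intro h
      have : (1 : O[X]) = 0 := by linear_combination h
      exact one_ne_zero this
    split_ifs at h2 with hi hj hj
    · exact hne' (by rw [hi, hj])
    · rw [if_pos hi, if_neg hj, if_pos h2.symm] at h1
      exact hX h1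
    · rw [if_pos hj, if_neg hi, if_pos h2] at h1
      exact hX h1.symm
    · exact hne' h2
  · intro i
    constructor
    · show 0 < (fam Q i).natDegree
      rw [fam, natDegree_mul (hfac i) hQ0, hdeg]
      split_ifs <;> omega
    · by_cases h1 : (i : ℕ) = 1
      · exact ⟨1, by simp [fam, h1]⟩
      · refine ⟨0, ?_⟩
        by_cases h0 : (i : ℕ) = 0
        · simp [fam, h0]
        · simp [fam, h0, h1]
  · intro I hI0
    obtain ⟨n, hn⟩ := root_mod (F := F) hI I hI0
    refine ⟨n, fun i => ?_⟩
    show (fam Q i).eval n ∈ I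
    rw [fam, eval_mul]
    exact I.mul_mem_left _ hn
  · intro hrec
    obtain ⟨f, hf⟩ := exists_functional (F := F) ht ht1 ht0
    obtain ⟨x, n, hx, hxn⟩ := hrec {x | f x = 0} (ker_density_pos f)
    have h1 : f (x + (fam Q 0).eval n) = 0 := hxn ⟨0, by omega⟩
    have h2 : f (x + (fam Q 1).eval n) = 0 := hxn ⟨1, by omega⟩
    have h3 : (x + (fam Q 0).eval n) - (x + (fam Q 1).eval n) = Q.eval n := by
      simp only [fam, if_true, one_ne_zero, if_false, eval_mul, eval_X, eval_sub, eval_one]
      ring
    apply hf n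
    rw [← hQ, ← h3, map_sub, h1, h2, sub_zero]

/-! ### Rings of integers of global function fields -/

/-- The facts about `O_K` that the construction uses. -/
theorem ringOfIntegers_facts (Fq K : Type*) [Field Fq] [Fintype Fq] [Field K] [Algebra Fq[X] K]
    [Algebra (RatFunc Fq) K] [IsScalarTower Fq[X] (RatFunc Fq) K] [FunctionField Fq K] :
    Countable (FunctionField.ringOfIntegers Fq K) ∧
    ∃ t : FunctionField.ringOfIntegers Fq K, ¬ IsUnit t ∧ ¬ IsUnit (t - 1) ∧ t ≠ 0 ∧
      ∀ I : Ideal (FunctionField.ringOfIntegers Fq K), I ≠ ⊥ →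
        ∃ (k : ℕ) (u : FunctionField.ringOfIntegers Fq K), t ^ k * (1 - t * u) ∈ I := by
  have hinj := FunctionField.ringOfIntegers.algebraMap_injective Fq K
  have hint : Algebra.IsIntegral Fq[X] (FunctionField.ringOfIntegers Fq K) :=
    IsIntegralClosure.isIntegral_algebra Fq[X] K
  have hloc : IsLocalHom (algebraMap Fq[X] (FunctionField.ringOfIntegers Fq K)) :=
    (algebraMap_isIntegral_iff.mpr hint).isLocalHom hinj
  constructor
  · have h0 : Countable Fq[X] := by
      rw [← Cardinal.mk_le_aleph0_iff]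
      exact cardinalMk_le_max.trans (max_le (Cardinal.mk_le_aleph0_iff.2 inferInstance) le_rfl)
    have htf : Module.IsTorsionFree Fq[X] K :=
      Module.isTorsionFree_iff_algebraMap_injective.2 (FunctionField.algebraMap_injective Fq K)
    have h1 : Set.Countable {x : K | IsAlgebraic Fq[X] x} := Algebraic.countable Fq[X] K
    have h2 : Set.Countable (FunctionField.ringOfIntegers Fq K : Set K) := by
      refine h1.mono (fun x hx => ?_)
      exact IsIntegral.isAlgebraic hx
    exact h2.to_subtype
  refine ⟨algebraMap Fq[X] (FunctionField.ringOfIntegers Fq K) X, ?_, ?_, ?_, ?_⟩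
  · intro h
    exact not_isUnit_X
      (isUnit_of_map_unit (algebraMap Fq[X] (FunctionField.ringOfIntegers Fq K)) _ h)
  · intro h
    rw [← map_one (algebraMap Fq[X] (FunctionField.ringOfIntegers Fq K)), ← map_sub] at h
    have := isUnit_of_map_unit (algebraMap Fq[X] (FunctionField.ringOfIntegers Fq K)) _ h
    rw [← C_1] at this
    exact not_isUnit_X_sub_C 1 this
  · intro h
    exact X_ne_zero (hinj (by rw [h, map_zero]))
  · intro I hI
    have h1 : I.comap (algebraMap Fq[X] (FunctionField.ringOfIntegers Fq K)) ≠ ⊥ :=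
      Ideal.IsIntegral.comap_ne_bot _ hI
    obtain ⟨g, hg, hg0⟩ := Submodule.exists_mem_ne_zero_of_ne_bot h1
    obtain ⟨h, hgh, hh⟩ :=
      (FiniteMultiplicity.of_not_isUnit not_isUnit_X hg0).exists_eq_pow_mul_and_not_dvd
    generalize multiplicity X g = k at hgh
    subst hgh
    have hcop : IsCoprime (X : Fq[X]) h := (Irreducible.coprime_iff_not_dvd irreducible_X).2 hh
    obtain ⟨u, v, huv⟩ := hcop
    refine ⟨k, algebraMap _ _ u, ?_⟩
    have h2 : algebraMap Fq[X] (FunctionField.ringOfIntegers Fq K) (v * (X ^ k * h)) ∈ I := by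
      rw [map_mul]
      exact I.mul_mem_left _ hg
    have h3 : v * (X ^ k * h) = X ^ k * (1 - X * u) := by
      linear_combination X ^ k * huv
    rw [h3] at h2
    simpa using h2

/-- **The equivalence of (i) and (ii) fails, for every global function field `K` and every
`k ≥ 1`.**  There is a nonconstant `P ∈ O_K[x]` that satisfies (i) but not (ii) (with `k = 1`), and
for every `k ≥ 2` there are `k` distinct nonconstant polynomials over `O_K`, each of them with a
root in `O_K`, that satisfy (i) but not (ii). -/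
theorem result (Fq K : Type*) [Field Fq] [Finite Fq] [Field K] [Algebra Fq[X] K]
    [Algebra (RatFunc Fq) K] [IsScalarTower Fq[X] (RatFunc Fq) K] [FunctionField Fq K] :
    (∃ P : (FunctionField.ringOfIntegers Fq K)[X], 0 < P.natDegree ∧
      RootModEveryIdeal (fun _ : Fin 1 => P) ∧ ¬ Recurrent (fun _ : Fin 1 => P)) ∧
    ∀ k : ℕ, 2 ≤ k → ∃ P : Fin k → (FunctionField.ringOfIntegers Fq K)[X],
      Function.Injective P ∧
        (∀ i, 0 < (P i).natDegree ∧ ∃ r : FunctionField.ringOfIntegers Fq K, (P i).eval r = 0) ∧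
          RootModEveryIdeal P ∧ ¬ Recurrent P := by
  have := Fintype.ofFinite Fq
  let alg : Algebra Fq (FunctionField.ringOfIntegers Fq K) :=
    ((algebraMap Fq[X] (FunctionField.ringOfIntegers Fq K)).comp C).toAlgebra
  obtain ⟨hcount, t, ht, ht1, ht0, hI⟩ := ringOfIntegers_facts Fq K
  exact ⟨main_one (F := Fq) ht ht1 ht0 hI, fun k hk => main_two (F := Fq) ht ht1 ht0 hI hk⟩

end Pool.Agent.Results.MP_045218_nt.FailsForEveryFunctionField
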